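import Pool.Agent.H61.RRk.Final

/-!
The negated form of Q1 of MP_7a141f_an, for infinitely many intervals of parameters: for
every `k` and every `B` with `2^(-1800 * 2^k) ≤ B ≤ 2^(-1664 * 2^k)`, every positive solution
of `y(n+1) = (B + y(n)) / (B + y(n-2))` (here indexed from `0`) converges to the equilibrium
`1` or to a positive periodic solution (of period `97 + 8 * k`).
-/

namespace Pool.Agent.Results.MP_7a141f_an.IntervalsOfParameters

open Filter Topology

theorem result :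
    ∀ (k : ℕ) (B : ℝ), 1 / 2 ^ (1800 * 2 ^ k) ≤ B → B ≤ 1 / 2 ^ (1664 * 2 ^ k) →
      0 < B ∧ B < Real.sqrt 2 - 1 ∧
      ∀ y : ℕ → ℝ, (∀ n, 0 < y n) → (∀ n, y (n + 3) = (B + y (n + 2)) / (B + y n)) →
        Tendsto y atTop (𝓝 1) ∨
        ∃ p : ℕ → ℝ, (∀ n, 0 < p n) ∧ (∀ n, p (n + 3) = (B + p (n + 2)) / (B + p n)) ∧
          (∀ n, p (n + (97 + 8 * k)) = p n) ∧ Tendsto (fun n => |y n - p n|) atTop (𝓝 0) := by
  intro k B h1 h2
  refine ⟨lt_of_lt_of_le (by positivity) h1, ?_, fun y hp hs =>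
    Pool.Agent.H61.RRk.main k B h1 h2 y hp hs⟩
  have h3 : (1.25 : ℝ) < Real.sqrt 2 := by
    apply Real.lt_sqrt_of_sq_lt
    norm_num
  have h4 : (1 : ℝ) / 2 ^ (1664 * 2 ^ k) ≤ 1 / 2 ^ 3 := by
    apply one_div_le_one_div_of_le (by positivity)
    refine pow_le_pow_right₀ (by norm_num) ?_
    have : 1 ≤ 2 ^ k := Nat.one_le_two_pow
    omega
  norm_num at h4
  have h5 : B ≤ 1 / 8 := h2.trans (by simpa using h4)
  linarith

end Pool.Agent.Results.MP_7a141f_an.IntervalsOfParameters
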